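import Pool.Agent.Y245.SC.Stm2
import Pool.Agent.Y618.SC.Loc

/-! Project SC, job LOC2: local extension across one point (adapted from `Pool.Agent.Y618.SC.Loc`). -/

set_option autoImplicit false

open Complex MeasureTheory Metric Set Filter Topology ComplexConjugate
open Pool.Agent.Y245.SC Pool.Agent.Y618.SC

namespace Pool.Agent.Y79.SC

/-- the integral along a fixed segment is holomorphic in the parameter -/
theorem seg_diff (hK : S_KAP) (hPar : S_PAR) {φ : ℂ → ℂ} {a ℓ : ℝ} (ha : 0 ≤ a)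
    (hφ : DifferentiableOn ℂ φ (ball 0 (Real.exp ℓ))) {p q : ℂ} (hp : p ∈ Strip ℓ)
    (hq : q ∈ Strip ℓ) {U : Set ℂ} (hU : IsOpen U) (hUℓ : ∀ z ∈ U, z.re < ℓ) :
    DifferentiableOn ℂ (fun z => seg (fun ω => ker a φ ω z (Fc φ ω)) p q) U := by
  have hpath : ∀ t ∈ Icc (0 : ℝ) 1, p + t * (q - p) ∈ Strip ℓ := by
    intro t ht
    have h1 := (strip_convex ℓ) hp hq (by linarith [ht.2] : (0 : ℝ) ≤ 1 - t) ht.1 (by ring)
    have h2 : p + t * (q - p) = (1 - t) • p + t • q := by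
      rw [real_smul, real_smul]
      push_cast
      ring
    rw [h2]
    exact h1
  refine hPar U (fun ω0 t => ker a φ (p + t * (q - p)) ω0 (Fc φ (p + t * (q - p))) * (q - p))
    hU ?_ ?_
  · rintro ⟨ω0, t⟩ ⟨hω0, ht⟩
    obtain ⟨p1, p2⟩ := hpath t ht
    have h8 : ContinuousAt (fun p : ℂ × ℂ × ℂ => ker a φ p.1 p.2.1 p.2.2)
        (p + t * (q - p), ω0, Fc φ (p + t * (q - p))) :=
      (ker_diff hK ha hφ p2 (hUℓ ω0 hω0)).continuousAt
    have h9 : ContinuousAt (fun x : ℂ × ℝ => (p + x.2 * (q - p))) (ω0, t) := by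
      fun_prop
    have h10 : ContinuousAt (fun x : ℂ × ℝ => Fc φ (p + x.2 * (q - p))) (ω0, t) :=
      ContinuousAt.comp (f := fun x : ℂ × ℝ => (p + x.2 * (q - p)))
        (x := (ω0, t)) (fc_diff hφ p1).continuousAt h9
    have h11 : ContinuousAt (fun x : ℂ × ℝ => ((p + x.2 * (q - p)), x.1,
        Fc φ (p + x.2 * (q - p)))) (ω0, t) :=
      h9.prodMk (continuousAt_fst.prodMk h10)
    have h12 := ContinuousAt.comp (f := fun x : ℂ × ℝ => ((p + x.2 * (q - p)), x.1,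
        Fc φ (p + x.2 * (q - p)))) (x := (ω0, t)) h8 h11
    exact (h12.mul continuousAt_const).continuousWithinAt
  · intro t ht ω0 hω0
    obtain ⟨p1, p2⟩ := hpath t ht
    have h8 : DifferentiableAt ℂ (fun p : ℂ × ℂ × ℂ => ker a φ p.1 p.2.1 p.2.2)
        (p + t * (q - p), ω0, Fc φ (p + t * (q - p))) :=
      ker_diff hK ha hφ p2 (hUℓ ω0 hω0)
    have h9 := DifferentiableAt.comp (f := fun z : ℂ => ((p + t * (q - p)), z,
        Fc φ (p + t * (q - p)))) ω0 h8 (by fun_prop)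
    exact (h9.mul (differentiableAt_const _)).differentiableWithinAt

theorem loc2 : S_LOC2 := by
  intro hK hSeg hPar hPic φ G a ℓ M y1 δ ha hℓ hδ hφ hG hV hM
  have ha0 : 0 ≤ a := ha.le
  -- compactness bounds
  have hsub : closedBall (0 : ℂ) 1 ⊆ ball 0 (Real.exp ℓ) := by
    refine closedBall_subset_ball ?_
    exact Real.one_lt_exp_iff.mpr hℓ
  obtain ⟨Φ, hΦ⟩ := (isCompact_closedBall (0 : ℂ) 1).exists_bound_of_continuousOn
    (hφ.continuousOn.mono hsub)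
  obtain ⟨Φ', hΦ'⟩ := (isCompact_closedBall (0 : ℂ) 1).exists_bound_of_continuousOn
    ((hφ.deriv isOpen_ball).continuousOn.mono hsub)
  have hsub2 : closedBall (0 : ℂ) (Real.exp (-(ℓ / 4))) ⊆ ball 0 1 := by
    refine closedBall_subset_ball ?_
    have h0 : Real.exp (-(ℓ / 4)) < Real.exp 0 := Real.exp_lt_exp.mpr (by linarith)
    rwa [Real.exp_zero] at h0
  obtain ⟨B, hB⟩ := (isCompact_closedBall (0 : ℂ) (Real.exp (-(ℓ / 4)))).exists_bound_of_continuousOn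
    (hG.continuousOn.mono hsub2)
  have hΦ0 : 0 ≤ Φ := (norm_nonneg _).trans (hΦ 0 (by simp))
  have hΦ0' : 0 ≤ Φ' := (norm_nonneg _).trans (hΦ' 0 (by simp))
  have hB0 : 0 ≤ B := (norm_nonneg _).trans (hB 0 (by simp; positivity))
  have hM0 : 0 ≤ M := (norm_nonneg _).trans (hM (y1 * I) (by simpa using hℓ) (by simp)
    (by simpa using hδ))
  obtain ⟨KB, hKB⟩ : ∃ KB : ℝ → ℝ, ∀ X, KB X =
    X ^ 2 * (a * Real.exp (a * (X * (2 * Φ)))) * Φ' := ⟨_, fun _ => rfl⟩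
  have hKB0 : ∀ X, 0 ≤ KB X := by
    intro X
    rw [hKB]
    positivity
  obtain ⟨M1, hM1⟩ : ∃ M1 : ℝ, M1 = M + 1 + B + KB Φ * |y1| + KB M * ℓ := ⟨_, rfl⟩
  have hp1 : 0 ≤ KB Φ * |y1| := mul_nonneg (hKB0 _) (abs_nonneg _)
  have hp2 : 0 ≤ KB M * ℓ := mul_nonneg (hKB0 _) hℓ.le
  have hM1pos : 0 < M1 := by linarith
  have hMM1 : M ≤ M1 := by linarith
  obtain ⟨L, hL⟩ : ∃ L : ℝ, L = KB (3 * M1) := ⟨_, rfl⟩
  have hL0 : 0 ≤ L := by rw [hL]; exact hKB0 _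
  obtain ⟨ρ, hρ⟩ : ∃ ρ : ℝ, ρ = min (ℓ / 4) (M1 / (8 * (L + 1))) := ⟨_, rfl⟩
  have hρ0 : 0 < ρ := by rw [hρ]; exact lt_min (by linarith) (by positivity)
  have hρℓ : ρ ≤ ℓ / 4 := by rw [hρ]; exact min_le_left _ _
  have hρL : ρ * L ≤ M1 / 8 := by
    have h1 : ρ ≤ M1 / (8 * (L + 1)) := by rw [hρ]; exact min_le_right _ _
    calc ρ * L ≤ ρ * (L + 1) := by gcongr; linarith
      _ ≤ M1 / (8 * (L + 1)) * (L + 1) := by gcongr
      _ = M1 / 8 := by field_simp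
  obtain ⟨η, hη⟩ : ∃ η : ℝ, η = min (ρ / 4) (ℓ / 8) := ⟨_, rfl⟩
  have hη0 : 0 < η := by rw [hη]; exact lt_min (by linarith) (by linarith)
  have hηρ : η ≤ ρ / 4 := by rw [hη]; exact min_le_left _ _
  have hηℓ : η ≤ ℓ / 8 := by rw [hη]; exact min_le_right _ _
  obtain ⟨ω1, hω1⟩ : ∃ ω1 : ℂ, ω1 = ((-ℓ + η : ℝ) : ℂ) + y1 * I := ⟨_, rfl⟩
  have hre1 : ω1.re = -ℓ + η := by rw [hω1]; simp
  have him1 : ω1.im = y1 := by rw [hω1]; simp
  -- real part in the ball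
  have hre : ∀ ω ∈ ball ω1 ρ, ω.re < -(ℓ / 4) := by
    intro ω hω
    have h4 : |(ω - ω1).re| < ρ := lt_of_le_of_lt (Complex.abs_re_le_norm _) (by
      rw [← dist_eq_norm]; exact hω)
    rw [sub_re] at h4
    have := (abs_lt.mp h4).2
    linarith
  obtain ⟨δ1, hδ1⟩ : ∃ δ1 : ℝ, δ1 = min η δ := ⟨_, rfl⟩
  have hδ10 : 0 < δ1 := by rw [hδ1]; exact lt_min hη0 hδ
  have hδ1η : δ1 ≤ η := by rw [hδ1]; exact min_le_left _ _
  have hδ1δ : δ1 ≤ δ := by rw [hδ1]; exact min_le_right _ _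
  have hδρ : δ1 ≤ ρ := by linarith
  have hreδ : ∀ ω ∈ ball ω1 δ1, -ℓ < ω.re := by
    intro ω hω
    have h4 : |(ω - ω1).re| < δ1 := lt_of_le_of_lt (Complex.abs_re_le_norm _) (by
      rw [← dist_eq_norm]; exact hω)
    rw [sub_re] at h4
    have := (abs_lt.mp h4).1
    linarith
  have himδ : ∀ ω ∈ ball ω1 δ1, |ω.im - y1| < δ := by
    intro ω hω
    have h4 : |(ω - ω1).im| < δ1 := lt_of_le_of_lt (Complex.abs_im_le_norm _) (by
      rw [← dist_eq_norm]; exact hω)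
    rw [sub_im, him1] at h4
    linarith
  -- the paths
  have s0 : (0 : ℂ) ∈ Strip ℓ := ⟨by simpa using hℓ, by simpa using hℓ⟩
  have sy : (y1 * I : ℂ) ∈ Strip ℓ := ⟨by simpa using hℓ, by simpa using hℓ⟩
  have s1 : ω1 ∈ Strip ℓ := ⟨by rw [hre1]; linarith, by rw [hre1]; linarith⟩
  have hFy : ∀ ω : ℂ, ω.re = 0 → ‖Fc φ ω‖ ≤ Φ := by
    intro ω hω
    have h1 : ‖Fc φ ω‖ = ‖φ (exp (-(conj ω)))‖ := by
      unfold Fc
      exact RCLike.norm_conj _
    rw [h1]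
    refine hΦ _ ?_
    rw [mem_closedBall_zero_iff, Complex.norm_exp, neg_re, conj_re, hω, neg_zero, Real.exp_zero]
  obtain ⟨A, hA⟩ : ∃ A : ℂ → ℂ, A = fun ω0 => G (exp ω0) +
    seg (fun ω => ker a φ ω ω0 (Fc φ ω)) 0 (y1 * I) +
    seg (fun ω => ker a φ ω ω0 (Fc φ ω)) (y1 * I) ω1 := ⟨_, rfl⟩
  have hUℓ : ∀ z ∈ ball ω1 ρ, z.re < ℓ := fun z hz => by have := hre z hz; linarith
  have hAd : DifferentiableOn ℂ A (ball ω1 ρ) := by
    rw [hA]
    refine DifferentiableOn.add (DifferentiableOn.add ?_ ?_) ?_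
    · intro ω0 hω0
      have h6 : exp ω0 ∈ ball (0 : ℂ) 1 := by
        have := exp_mem (r := 0) (ω := ω0) (by have := hre _ hω0; linarith)
        rwa [Real.exp_zero] at this
      exact (DifferentiableAt.comp ω0 (hG.differentiableAt (isOpen_ball.mem_nhds h6))
        (by fun_prop)).differentiableWithinAt
    · exact seg_diff hK hPar ha0 hφ s0 sy isOpen_ball hUℓ
    · exact seg_diff hK hPar ha0 hφ sy s1 isOpen_ball hUℓ
  have hAb : ∀ ω ∈ ball ω1 ρ, ‖A ω‖ ≤ M1 := by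
    intro ω0 hω0
    have h0 := hre _ hω0
    have h6 : exp ω0 ∈ closedBall (0 : ℂ) (Real.exp (-(ℓ / 4))) := by
      rw [mem_closedBall_zero_iff, Complex.norm_exp]
      exact Real.exp_le_exp.mpr (hre _ hω0).le
    have h7 := hB _ h6
    have h8 : ‖seg (fun ω => ker a φ ω ω0 (Fc φ ω)) 0 (y1 * I)‖ ≤ KB Φ * |y1| * |1 - 0| := by
      refine intervalIntegral.norm_integral_le_of_norm_le_const ?_
      intro t _
      have e1 : ((0 : ℂ) + t * (y1 * I - 0)).re = 0 := by simp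
      rw [norm_mul]
      have e2 : ‖(y1 * I - 0 : ℂ)‖ = |y1| := by
        rw [sub_zero, norm_mul, Complex.norm_I, mul_one, Complex.norm_real, Real.norm_eq_abs]
      rw [e2]
      refine mul_le_mul_of_nonneg_right ?_ (abs_nonneg _)
      rw [hKB]
      exact ker_bound hK ha0 hΦ hΦ' e1.le (by linarith) (hFy _ e1)
    have h9 : ‖seg (fun ω => ker a φ ω ω0 (Fc φ ω)) (y1 * I) ω1‖ ≤ KB M * ℓ * |1 - 0| := by
      refine intervalIntegral.norm_integral_le_of_norm_le_const ?_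
      intro t ht
      rw [uIoc_of_le zero_le_one] at ht
      have e1 : ((y1 * I : ℂ) + t * (ω1 - y1 * I)).re = t * (-ℓ + η) := by
        simp [hre1]
      have e3 : ((y1 * I : ℂ) + t * (ω1 - y1 * I)).im = y1 := by
        simp [him1]
      have e4 : t * (-ℓ + η) ≤ 0 := mul_nonpos_of_nonneg_of_nonpos ht.1.le (by linarith)
      have e5 : -ℓ < t * (-ℓ + η) := by nlinarith [ht.2, ht.1]
      rw [norm_mul]
      have e2 : ‖(ω1 - y1 * I : ℂ)‖ ≤ ℓ := by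
        have : ω1 - y1 * I = ((-ℓ + η : ℝ) : ℂ) := by rw [hω1]; ring
        rw [this, Complex.norm_real, Real.norm_eq_abs, abs_le]
        constructor <;> linarith
      refine mul_le_mul ?_ e2 (norm_nonneg _) (hKB0 M)
      rw [hKB]
      refine ker_bound hK ha0 hΦ hΦ' (by rw [e1]; exact e4) (by linarith) (hM _ ?_ ?_ ?_)
      · rw [e1]; exact e5
      · rw [e1]; exact e4
      · rw [e3, sub_self, abs_zero]; exact hδ
    rw [sub_zero, abs_one, mul_one] at h8 h9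
    rw [hA]
    refine (norm_add_le _ _).trans ?_
    have h10 := norm_add_le (G (exp ω0)) (seg (fun ω => ker a φ ω ω0 (Fc φ ω)) 0 (y1 * I))
    linarith
  have hκd : DifferentiableOn ℂ (fun p : ℂ × ℂ × ℂ => ker a φ p.1 p.2.1 p.2.2)
      (ball ω1 ρ ×ˢ ball ω1 ρ ×ˢ ball 0 (3 * M1)) := by
    rintro ⟨x, y, z⟩ ⟨hx, hy, hz⟩
    exact (ker_diff hK ha0 hφ (by have := hre _ hx; dsimp only; linarith)
      (by have := hre _ hy; dsimp only; linarith)).differentiableWithinAt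
  have hκb : ∀ p ∈ ball ω1 ρ ×ˢ ball ω1 ρ ×ˢ ball (0 : ℂ) (3 * M1),
      ‖ker a φ p.1 p.2.1 p.2.2‖ ≤ L := by
    rintro ⟨x, y, z⟩ ⟨hx, hy, hz⟩
    rw [hL, hKB]
    exact ker_bound hK ha0 hΦ hΦ' (by have := hre _ hx; dsimp only; linarith)
      (by have := hre _ hy; dsimp only; linarith) (mem_ball_zero_iff.mp hz).le
  have hFd : DifferentiableOn ℂ (Fc φ) (ball ω1 δ1) := fun ω hω =>
    (fc_diff hφ (hreδ ω hω)).differentiableWithinAt
  have hFb : ∀ ω ∈ ball ω1 δ1, ‖Fc φ ω‖ ≤ M1 := by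
    intro ω hω
    have h4 := hre ω (ball_subset_ball hδρ hω)
    exact (hM ω (hreδ ω hω) (by linarith) (himδ ω hω)).trans hMM1
  have heq : ∀ ω0 ∈ ball ω1 δ1, Fc φ ω0 = A ω0 +
      seg (fun ω => ker a φ ω ω0 (Fc φ ω)) ω1 ω0 := by
    intro ω0 hω0
    have h4 := hre ω0 (ball_subset_ball hδρ hω0)
    have h5 := hreδ ω0 hω0
    have s2 : ω0 ∈ Strip ℓ := ⟨h5, by linarith⟩
    have h6 := (hSeg (Strip ℓ) (fun ω => ker a φ ω ω0 (Fc φ ω)) (strip_open ℓ) (strip_convex ℓ)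
      (by
        intro ω hω
        have h7 : DifferentiableAt ℂ (fun p : ℂ × ℂ × ℂ => ker a φ p.1 p.2.1 p.2.2)
            (ω, ω0, Fc φ ω) :=
          ker_diff hK ha0 hφ hω.2 (by dsimp only; linarith)
        have h8 := DifferentiableAt.comp (f := fun z : ℂ => (z, ω0, Fc φ z)) ω h7
          (differentiableAt_id.prodMk ((differentiableAt_const _).prodMk (fc_diff hφ hω.1)))
        exact h8.differentiableWithinAt)).1
    rw [hV ω0 h5 (by linarith), hA]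
    rw [← h6 0 s0 ω1 s1 ω0 s2, ← h6 0 s0 (y1 * I) sy ω1 s1]
    ring
  obtain ⟨F', hF1, -, hF3⟩ := hPic hPar ω1 ρ δ1 M1 L A
    (fun p : ℂ × ℂ × ℂ => ker a φ p.1 p.2.1 p.2.2) (Fc φ) hδ10 hδρ hM1pos hL0 hρL hAd hAb hκd hκb
    hFd hFb heq
  -- the identity theorem
  obtain ⟨V, hVd⟩ : ∃ V : Set ℂ, V = ball ω1 ρ ∩ {ω : ℂ | -ℓ < ω.re} := ⟨_, rfl⟩
  have hVo : IsOpen V := by
    rw [hVd]
    exact isOpen_ball.inter (isOpen_lt continuous_const Complex.continuous_re)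
  have hVc : IsPreconnected V := by
    rw [hVd]
    exact ((convex_ball ω1 ρ).inter (convex_halfSpace_re_gt (-ℓ))).isPreconnected
  have hω1V : ω1 ∈ V := by
    rw [hVd]
    exact ⟨mem_ball_self hρ0, s1.1⟩
  have hEq : EqOn F' (Fc φ) V := by
    have q1 : AnalyticOnNhd ℂ F' V := by
      refine DifferentiableOn.analyticOnNhd (hF1.mono ?_) hVo
      rw [hVd]
      exact inter_subset_left
    have q2 : AnalyticOnNhd ℂ (Fc φ) V := by
      refine DifferentiableOn.analyticOnNhd (fun ω hω => ?_) hVo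
      rw [hVd] at hω
      exact (fc_diff hφ hω.2).differentiableWithinAt
    exact q1.eqOn_of_preconnected_of_eventuallyEq q2 hVc hω1V
      (hF3.eventuallyEq_of_mem (ball_mem_nhds ω1 hδ10))
  have hdist : dist (((-ℓ : ℝ) : ℂ) + y1 * I) ω1 = η := by
    rw [hω1, dist_eq_norm]
    have : ((-ℓ : ℝ) : ℂ) + y1 * I - (((-ℓ + η : ℝ) : ℂ) + y1 * I) = ((-η : ℝ) : ℂ) := by
      push_cast
      ring
    rw [this, Complex.norm_real, norm_neg, Real.norm_of_nonneg hη0.le]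
  have hsubb : ball (((-ℓ : ℝ) : ℂ) + y1 * I) (ρ - η) ⊆ ball ω1 ρ := by
    refine ball_subset_ball' ?_
    rw [hdist]
    linarith
  refine ⟨ρ - η, F', by linarith, hF1.mono hsubb, fun ω hω h1 => hEq ?_⟩
  rw [hVd]
  exact ⟨hsubb hω, h1⟩

end Pool.Agent.Y79.SC
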